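import Mathlib
import Pool.Agent.H.MP_15e54c_lc.A

namespace Pool.Agent.Results.MP_15e54c_lc.Yes

open Set MeasureTheory Pool.Agent.H.MP_15e54c_lc.A

/-- The translates of `B` by the elements of `H` are pairwise disjoint. -/
def DT (B H : Set (ℕ → ZMod 2)) : Prop :=
  H.Pairwise fun x y => Disjoint ((· + x) '' B) ((· + y) '' B)

def hh (p : G) : G := fun n => p (5 * n) * p (5 * n + 1) + p (5 * n + 2) * p (5 * n + 3)

lemma bent (c : ZMod 2) (w : Fin 4 → ZMod 2) : ∃ b : Fin 4 → ZMod 2, b 0 * b 1 + b 2 * b 3 = c ∧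
    (b 0 + w 0) * (b 1 + w 1) + (b 2 + w 2) * (b 3 + w 3) = c := by
  have : ∀ c s t u v : ZMod 2, ∃ x y z k : ZMod 2, x * y + z * k = c ∧
      (x + s) * (y + t) + (z + u) * (k + v) = c := by decide
  obtain ⟨x, y, z, k, h⟩ := this c (w 0) (w 1) (w 2) (w 3)
  exact ⟨![x, y, z, k], h⟩

theorem result : ∃ B : Set (ℕ → ZMod 2), MeasurableSet[borel _] B ∧
    (∃ H, ¬ H.Countable ∧ DT B H) ∧ ¬ ∃ P, Perfect P ∧ P.Nonempty ∧ DT B P := by
  choose β b1 b2 using bent
  let b : G → G := fun a i => β (a (i / 5)) (fun j => a (5 * (i / 5) + j)) ⟨i % 5 % 4, by omega⟩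
  have bc : Continuous b := continuous_pi fun i =>
    (continuous_of_discreteTopology (f := fun t : ZMod 2 × (Fin 4 → ZMod 2) =>
      β t.1 t.2 ⟨i % 5 % 4, by omega⟩)).comp
        (f := fun a : G => (a (i / 5), fun j : Fin 4 => a (5 * (i / 5) + j))) (by fun_prop)
  have hc : Continuous hh := by unfold hh; fun_prop
  have be : ∀ a n (j : Fin 4), b a (5 * n + j) = β (a n) (fun j => a (5 * n + j)) j := fun a n j => by
    have h1 : (5 * n + j) / 5 = n := by omega
    have h2 : (5 * n + j) % 5 % 4 = j := by omega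
    simp only [b, h1, h2]
  have e1 : ∀ a, hh (b a) = a := fun a => funext fun n => by
    rw [← b1 (a n) fun j => a (5 * n + j), ← be, ← be, ← be, ← be]; rfl
  have e2 : ∀ a, hh (b a + a) = a := fun a => funext fun n => by
    rw [← b2 (a n) fun j => a (5 * n + j), ← be, ← be, ← be, ← be]; rfl
  refine ⟨hh ⁻¹' Cᶜ ∩ ({p | p = b (hh p)} ∪ {p | p = b (hh p) + hh p}), ?_, ?_, ?_⟩
  · rw [← BorelSpace.measurable_eq]
    refine (hc.measurable (MeasurableSet.iUnion fun n => (isCompact_range ?_).measurableSet).compl).inter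
      ((isClosed_eq continuous_id (by fun_prop)).union
        (isClosed_eq continuous_id (by fun_prop))).measurableSet
    have := φc; have := slc n; fun_prop
  · obtain ⟨H, h1, h2⟩ := exH
    refine ⟨H, h1, fun x hx y hy k => disjoint_left.2 ?_⟩
    rintro _ ⟨p, ⟨p1, p2⟩, rfl⟩ ⟨q, ⟨q1, q2⟩, l⟩
    have l1 : p + q = x + y := by linear_combination l + two p - two y
    have l2 : x + y ∈ C := h2 hx hy k
    have l3 : hh q = hh p := by
      obtain ⟨_, ⟨n, rfl⟩, a, ha⟩ := l2
      have : ∀ i, i % 5 ≠ 4 → q i = p i := fun i hi => by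
        have := congrFun (ha.trans l1.symm) i
        simp only [φ, hi, false_and, if_false, Pi.add_apply, add_zero] at this
        linear_combination CharTwo.add_self_eq_zero (q i) + this
      funext n
      unfold hh
      rw [this _ (by omega), this (5 * n + 1) (by omega), this (5 * n + 2) (by omega),
        this (5 * n + 3) (by omega)]
    simp only [mem_union, mem_setOf_eq, l3] at p2 q2
    rw [← l1] at l2
    have l4 : p + q ≠ 0 := fun e => k (can (l1.symm.trans e))
    rcases p2 with p2 | p2 <;> rcases q2 with q2 | q2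
    · exact l4 (by rw [q2, ← p2, two])
    · exact p1 (by convert l2 using 1; linear_combination -p2 - q2 - two (b (hh p)))
    · exact p1 (by convert l2 using 1; linear_combination -p2 - q2 - two (b (hh p)))
    · exact l4 (by rw [q2, ← p2, two])
  · rintro ⟨P, h1, h2, h3⟩
    refine noP h1 h2 fun p hp q hq k => by_contra fun l => disjoint_left.1 (h3 hp hq k)
      ⟨b (p + q), ⟨by rwa [mem_preimage, e1], .inl (by rw [mem_setOf_eq, e1])⟩, rfl⟩
      ⟨b (p + q) + (p + q), ⟨by rwa [mem_preimage, e2], .inr (by rw [mem_setOf_eq, e2])⟩, ?_⟩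
    simp only
    linear_combination two q

end Pool.Agent.Results.MP_15e54c_lc.Yes
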